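import Pool.Agent.H82.NTB.Stmts

/-!
Row XASE: crossings of an element with itself, first corner of kind `SE`.
-/

set_option autoImplicit false

namespace Pool.NTB

open Pool.NET

lemma xase_tri (S a b : ℤ) (hS : 0 < S) :
    (b = a ∧ S * b = S * a) ∨ S * b + S ≤ S * a ∨ S * a + S ≤ S * b := by
  rcases lt_trichotomy b a with h | h | h
  · right; left; nlinarith [Int.add_one_le_of_lt h]
  · left; subst h; exact ⟨rfl, rfl⟩
  · right; right; nlinarith [Int.add_one_le_of_lt h]

theorem xase_thm : XSA Ke.SE := by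
  intro p e g N h u hp hH hU v w hv hw h1 h2 h3 h4
  obtain ⟨c, r⟩ := v
  obtain ⟨⟨c', r'⟩, k⟩ := w
  obtain ⟨q0, gq, gW, We, eM, MS⟩ := hp
  have hx := xase_tri p.S c c' (by omega)
  have hy := xase_tri p.S r r' (by omega)
  by_cases hh : h (c, r) <;> by_cases hu : u (c', r') <;> by_cases hu2 : u (c', r' - 1) <;>
    cases k <;>
    simp only [lo, hi, fx, fy, jl, jh, nx2, pv2, OK2, hh, hu, hu2, if_true, if_false,
      mul_sub, mul_one] at h1 h2 h3 h4 hw ⊢ <;>
    rcases hx with hx | hx | hx <;> rcases hy with hy | hy | hy <;>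
    first
      | (exfalso; omega)
      | (obtain ⟨rfl, -⟩ := hx; obtain ⟨rfl, -⟩ := hy; simp_all)

end Pool.NTB
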